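import Pool.Agent.Helper77.DT.Small.Classes

set_option autoImplicit false

/-! The remaining small values of `k`. -/

namespace Pool.Agent.Helper77.DT

theorem Fam.small_137 {l : ℕ} {c u v w d : ℤ} (F : Fam 137 l c u v w d) : False := by
  have h := F.cls 4 1173 384 (by norm_num) (by norm_num) (by norm_num) (by norm_num)
    (by norm_num) (by decide +kernel)
  have hlt : l % 384 < 384 := Nat.mod_lt _ (by norm_num)
  have hall : ∀ r < 384, clsB 137 4 r = true → r = 0 ∨ r = 20 ∨ r = 107 ∨ r = 128 ∨ r = 255 ∨ r = 276 ∨ r = 363 ∨ r = 383 := by
    decide +kernel
  rcases hall _ hlt h with h | h | h | h | h | h | h | h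
  · exact F.kill_class 31 384 0 (by norm_num) (by norm_num) (by decide +kernel) h (by decide +kernel)
  · exact F.kill_class 31 384 20 (by norm_num) (by norm_num) (by decide +kernel) h (by decide +kernel)
  · exact F.kill_class 31 384 107 (by norm_num) (by norm_num) (by decide +kernel) h (by decide +kernel)
  · exact F.kill_class 31 384 128 (by norm_num) (by norm_num) (by decide +kernel) h (by decide +kernel)
  · exact F.kill_class 31 384 255 (by norm_num) (by norm_num) (by decide +kernel) h (by decide +kernel)
  · exact F.kill_class 31 384 276 (by norm_num) (by norm_num) (by decide +kernel) h (by decide +kernel)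
  · exact F.kill_class 31 384 363 (by norm_num) (by norm_num) (by decide +kernel) h (by decide +kernel)
  · exact F.kill_class 31 384 383 (by norm_num) (by norm_num) (by decide +kernel) h (by decide +kernel)

theorem Fam.small_167 {l : ℕ} {c u v w d : ℤ} (F : Fam 167 l c u v w d) : False := by
  have h := F.cls 4 1743 384 (by norm_num) (by norm_num) (by norm_num) (by norm_num)
    (by norm_num) (by decide +kernel)
  have hlt : l % 384 < 384 := Nat.mod_lt _ (by norm_num)
  have hall : ∀ r < 384, clsB 167 4 r = true → r = 0 ∨ r = 3 ∨ r = 128 ∨ r = 131 ∨ r = 252 ∨ r = 255 ∨ r = 380 ∨ r = 383 := by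
    decide +kernel
  rcases hall _ hlt h with h | h | h | h | h | h | h | h
  · exact F.kill_class 127 384 0 (by norm_num) (by norm_num) (by decide +kernel) h (by decide +kernel)
  · exact F.kill_class 13 384 3 (by norm_num) (by norm_num) (by decide +kernel) h (by decide +kernel)
  · exact F.kill_class 13 384 128 (by norm_num) (by norm_num) (by decide +kernel) h (by decide +kernel)
  · exact F.kill_class 127 384 131 (by norm_num) (by norm_num) (by decide +kernel) h (by decide +kernel)
  · exact F.kill_class 127 384 252 (by norm_num) (by norm_num) (by decide +kernel) h (by decide +kernel)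
  · exact F.kill_class 13 384 255 (by norm_num) (by norm_num) (by decide +kernel) h (by decide +kernel)
  · exact F.kill_class 13 384 380 (by norm_num) (by norm_num) (by decide +kernel) h (by decide +kernel)
  · exact F.kill_class 127 384 383 (by norm_num) (by norm_num) (by decide +kernel) h (by decide +kernel)

theorem Fam.small_169 {l : ℕ} {c u v w d : ℤ} (F : Fam 169 l c u v w d) : False := by
  have h := F.cls 4 1785 384 (by norm_num) (by norm_num) (by norm_num) (by norm_num)
    (by norm_num) (by decide +kernel)
  have hlt : l % 384 < 384 := Nat.mod_lt _ (by norm_num)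
  have hall : ∀ r < 384, clsB 169 4 r = true → r = 0 ∨ r = 36 ∨ r = 128 ∨ r = 164 ∨ r = 219 ∨ r = 255 ∨ r = 347 ∨ r = 383 := by
    decide +kernel
  rcases hall _ hlt h with h | h | h | h | h | h | h | h
  · exact F.kill_class 127 384 0 (by norm_num) (by norm_num) (by decide +kernel) h (by decide +kernel)
  · exact F.kill_class 127 384 36 (by norm_num) (by norm_num) (by decide +kernel) h (by decide +kernel)
  · exact F.kill_class 23 384 128 (by norm_num) (by norm_num) (by decide +kernel) h (by decide +kernel)
  · exact F.kill_class 23 384 164 (by norm_num) (by norm_num) (by decide +kernel) h (by decide +kernel)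
  · exact F.kill_class 23 384 219 (by norm_num) (by norm_num) (by decide +kernel) h (by decide +kernel)
  · exact F.kill_class 23 384 255 (by norm_num) (by norm_num) (by decide +kernel) h (by decide +kernel)
  · exact F.kill_class 127 384 347 (by norm_num) (by norm_num) (by decide +kernel) h (by decide +kernel)
  · exact F.kill_class 127 384 383 (by norm_num) (by norm_num) (by decide +kernel) h (by decide +kernel)

theorem Fam.small_185 {l : ℕ} {c u v w d : ℤ} (F : Fam 185 l c u v w d) : False := by
  have h := F.cls 4 2139 384 (by norm_num) (by norm_num) (by norm_num) (by norm_num)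
    (by norm_num) (by decide +kernel)
  have hlt : l % 384 < 384 := Nat.mod_lt _ (by norm_num)
  have hall : ∀ r < 384, clsB 185 4 r = true → r = 0 ∨ r = 44 ∨ r = 83 ∨ r = 128 ∨ r = 255 ∨ r = 300 ∨ r = 339 ∨ r = 383 := by
    decide +kernel
  rcases hall _ hlt h with h | h | h | h | h | h | h | h
  · exact F.kill_class 79 384 0 (by norm_num) (by norm_num) (by decide +kernel) h (by decide +kernel)
  · exact F.kill_class 79 384 44 (by norm_num) (by norm_num) (by decide +kernel) h (by decide +kernel)
  · exact F.kill_class 79 384 83 (by norm_num) (by norm_num) (by decide +kernel) h (by decide +kernel)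
  · exact F.kill_class 79 384 128 (by norm_num) (by norm_num) (by decide +kernel) h (by decide +kernel)
  · exact F.kill_class 79 384 255 (by norm_num) (by norm_num) (by decide +kernel) h (by decide +kernel)
  · exact F.kill_class 79 384 300 (by norm_num) (by norm_num) (by decide +kernel) h (by decide +kernel)
  · exact F.kill_class 79 384 339 (by norm_num) (by norm_num) (by decide +kernel) h (by decide +kernel)
  · exact F.kill_class 79 384 383 (by norm_num) (by norm_num) (by decide +kernel) h (by decide +kernel)

end Pool.Agent.Helper77.DT
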