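import Pool.Agent.Helper77.DT.Small.Classes

set_option autoImplicit false

/-! The remaining small values of `k`. -/

namespace Pool.Agent.Helper77.DT

theorem Fam.small_263 {l : ℕ} {c u v w d : ℤ} (F : Fam 263 l c u v w d) : False := by
  have h := F.cls 4 4323 384 (by norm_num) (by norm_num) (by norm_num) (by norm_num)
    (by norm_num) (by decide +kernel)
  have hlt : l % 384 < 384 := Nat.mod_lt _ (by norm_num)
  have hall : ∀ r < 384, clsB 263 4 r = true → r = 0 ∨ r = 51 ∨ r = 128 ∨ r = 179 ∨ r = 204 ∨ r = 255 ∨ r = 332 ∨ r = 383 := by
    decide +kernel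
  rcases hall _ hlt h with h | h | h | h | h | h | h | h
  · exact F.kill_class 127 384 0 (by norm_num) (by norm_num) (by decide +kernel) h (by decide +kernel)
  · exact F.kill_class 47 384 51 (by norm_num) (by norm_num) (by decide +kernel) h (by decide +kernel)
  · exact F.kill_class 47 384 128 (by norm_num) (by norm_num) (by decide +kernel) h (by decide +kernel)
  · have h5 : l % 1920 = 179 ∨ l % 1920 = 563 ∨ l % 1920 = 947 ∨ l % 1920 = 1331 ∨ l % 1920 = 1715 := by omega
    rcases h5 with h | h | h | h | h
    · exact F.kill_class 19 1920 179 (by norm_num) (by norm_num) (by decide +kernel) h (by decide +kernel)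
    · exact F.kill_class 19 1920 563 (by norm_num) (by norm_num) (by decide +kernel) h (by decide +kernel)
    · exact F.kill_class 41 1920 947 (by norm_num) (by norm_num) (by decide +kernel) h (by decide +kernel)
    · exact F.kill_class 19 1920 1331 (by norm_num) (by norm_num) (by decide +kernel) h (by decide +kernel)
    · exact F.kill_class 19 1920 1715 (by norm_num) (by norm_num) (by decide +kernel) h (by decide +kernel)
  · have h5 : l % 1920 = 204 ∨ l % 1920 = 588 ∨ l % 1920 = 972 ∨ l % 1920 = 1356 ∨ l % 1920 = 1740 := by omega
    rcases h5 with h | h | h | h | h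
    · exact F.kill_class 19 1920 204 (by norm_num) (by norm_num) (by decide +kernel) h (by decide +kernel)
    · exact F.kill_class 19 1920 588 (by norm_num) (by norm_num) (by decide +kernel) h (by decide +kernel)
    · exact F.kill_class 41 1920 972 (by norm_num) (by norm_num) (by decide +kernel) h (by decide +kernel)
    · exact F.kill_class 19 1920 1356 (by norm_num) (by norm_num) (by decide +kernel) h (by decide +kernel)
    · exact F.kill_class 19 1920 1740 (by norm_num) (by norm_num) (by decide +kernel) h (by decide +kernel)
  · exact F.kill_class 47 384 255 (by norm_num) (by norm_num) (by decide +kernel) h (by decide +kernel)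
  · exact F.kill_class 47 384 332 (by norm_num) (by norm_num) (by decide +kernel) h (by decide +kernel)
  · exact F.kill_class 127 384 383 (by norm_num) (by norm_num) (by decide +kernel) h (by decide +kernel)

theorem Fam.small_265 {l : ℕ} {c u v w d : ℤ} (F : Fam 265 l c u v w d) : False := by
  have h := F.cls 4 4389 384 (by norm_num) (by norm_num) (by norm_num) (by norm_num)
    (by norm_num) (by decide +kernel)
  have hlt : l % 384 < 384 := Nat.mod_lt _ (by norm_num)
  have hall : ∀ r < 384, clsB 265 4 r = true → r = 0 ∨ r = 84 ∨ r = 128 ∨ r = 171 ∨ r = 212 ∨ r = 255 ∨ r = 299 ∨ r = 383 := by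
    decide +kernel
  rcases hall _ hlt h with h | h | h | h | h | h | h | h
  · have h5 : l % 1920 = 0 ∨ l % 1920 = 384 ∨ l % 1920 = 768 ∨ l % 1920 = 1152 ∨ l % 1920 = 1536 := by omega
    rcases h5 with h | h | h | h | h
    · exact F.kill_class 199 1920 0 (by norm_num) (by norm_num) (by decide +kernel) h (by decide +kernel)
    · exact F.kill_class 61 1920 384 (by norm_num) (by norm_num) (by decide +kernel) h (by decide +kernel)
    · exact F.kill_class 29 1920 768 (by norm_num) (by norm_num) (by decide +kernel) h (by decide +kernel)
    · exact F.kill_class 29 1920 1152 (by norm_num) (by norm_num) (by decide +kernel) h (by decide +kernel)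
    · exact F.kill_class 29 1920 1536 (by norm_num) (by norm_num) (by decide +kernel) h (by decide +kernel)
  · exact F.kill_class 97 384 84 (by norm_num) (by norm_num) (by decide +kernel) h (by decide +kernel)
  · exact F.kill_class 383 384 128 (by norm_num) (by norm_num) (by decide +kernel) h (by decide +kernel)
  · exact F.kill_class 97 384 171 (by norm_num) (by norm_num) (by decide +kernel) h (by decide +kernel)
  · exact F.kill_class 97 384 212 (by norm_num) (by norm_num) (by decide +kernel) h (by decide +kernel)
  · exact F.kill_class 383 384 255 (by norm_num) (by norm_num) (by decide +kernel) h (by decide +kernel)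
  · exact F.kill_class 97 384 299 (by norm_num) (by norm_num) (by decide +kernel) h (by decide +kernel)
  · have h5 : l % 1920 = 383 ∨ l % 1920 = 767 ∨ l % 1920 = 1151 ∨ l % 1920 = 1535 ∨ l % 1920 = 1919 := by omega
    rcases h5 with h | h | h | h | h
    · exact F.kill_class 29 1920 383 (by norm_num) (by norm_num) (by decide +kernel) h (by decide +kernel)
    · exact F.kill_class 29 1920 767 (by norm_num) (by norm_num) (by decide +kernel) h (by decide +kernel)
    · exact F.kill_class 29 1920 1151 (by norm_num) (by norm_num) (by decide +kernel) h (by decide +kernel)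
    · exact F.kill_class 61 1920 1535 (by norm_num) (by norm_num) (by decide +kernel) h (by decide +kernel)
    · exact F.kill_class 199 1920 1919 (by norm_num) (by norm_num) (by decide +kernel) h (by decide +kernel)

theorem Fam.small_295 {l : ℕ} {c u v w d : ℤ} (F : Fam 295 l c u v w d) : False := by
  have h := F.cls 4 5439 384 (by norm_num) (by norm_num) (by norm_num) (by norm_num)
    (by norm_num) (by decide +kernel)
  have hlt : l % 384 < 384 := Nat.mod_lt _ (by norm_num)
  have hall : ∀ r < 384, clsB 295 4 r = true → r = 0 ∨ r = 60 ∨ r = 128 ∨ r = 188 ∨ r = 195 ∨ r = 255 ∨ r = 323 ∨ r = 383 := by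
    decide +kernel
  rcases hall _ hlt h with h | h | h | h | h | h | h | h
  · exact F.kill_class 127 384 0 (by norm_num) (by norm_num) (by decide +kernel) h (by decide +kernel)
  · exact F.kill_class 353 384 60 (by norm_num) (by norm_num) (by decide +kernel) h (by decide +kernel)
  · exact F.kill_class 127 384 128 (by norm_num) (by norm_num) (by decide +kernel) h (by decide +kernel)
  · exact F.kill_class 353 384 188 (by norm_num) (by norm_num) (by decide +kernel) h (by decide +kernel)
  · exact F.kill_class 353 384 195 (by norm_num) (by norm_num) (by decide +kernel) h (by decide +kernel)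
  · exact F.kill_class 127 384 255 (by norm_num) (by norm_num) (by decide +kernel) h (by decide +kernel)
  · exact F.kill_class 353 384 323 (by norm_num) (by norm_num) (by decide +kernel) h (by decide +kernel)
  · exact F.kill_class 127 384 383 (by norm_num) (by norm_num) (by decide +kernel) h (by decide +kernel)

theorem Fam.small_311 {l : ℕ} {c u v w d : ℤ} (F : Fam 311 l c u v w d) : False := by
  have h := F.cls 4 6045 384 (by norm_num) (by norm_num) (by norm_num) (by norm_num)
    (by norm_num) (by decide +kernel)
  have hlt : l % 384 < 384 := Nat.mod_lt _ (by norm_num)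
  have hall : ∀ r < 384, clsB 311 4 r = true → r = 0 ∨ r = 75 ∨ r = 128 ∨ r = 180 ∨ r = 203 ∨ r = 255 ∨ r = 308 ∨ r = 383 := by
    decide +kernel
  rcases hall _ hlt h with h | h | h | h | h | h | h | h
  · have h5 : l % 1920 = 0 ∨ l % 1920 = 384 ∨ l % 1920 = 768 ∨ l % 1920 = 1152 ∨ l % 1920 = 1536 := by omega
    rcases h5 with h | h | h | h | h
    · exact F.kill_class 19 1920 0 (by norm_num) (by norm_num) (by decide +kernel) h (by decide +kernel)
    · exact F.kill_class 19 1920 384 (by norm_num) (by norm_num) (by decide +kernel) h (by decide +kernel)
    · exact F.kill_class 79 1920 768 (by norm_num) (by norm_num) (by decide +kernel) h (by decide +kernel)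
    · exact F.kill_class 19 1920 1152 (by norm_num) (by norm_num) (by decide +kernel) h (by decide +kernel)
    · exact F.kill_class 211 1920 1536 (by norm_num) (by norm_num) (by decide +kernel) h (by decide +kernel)
  · exact F.kill_class 97 384 75 (by norm_num) (by norm_num) (by decide +kernel) h (by decide +kernel)
  · exact F.kill_class 97 384 128 (by norm_num) (by norm_num) (by decide +kernel) h (by decide +kernel)
  · exact F.kill_class 97 384 180 (by norm_num) (by norm_num) (by decide +kernel) h (by decide +kernel)
  · exact F.kill_class 97 384 203 (by norm_num) (by norm_num) (by decide +kernel) h (by decide +kernel)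
  · exact F.kill_class 97 384 255 (by norm_num) (by norm_num) (by decide +kernel) h (by decide +kernel)
  · exact F.kill_class 97 384 308 (by norm_num) (by norm_num) (by decide +kernel) h (by decide +kernel)
  · have h5 : l % 1920 = 383 ∨ l % 1920 = 767 ∨ l % 1920 = 1151 ∨ l % 1920 = 1535 ∨ l % 1920 = 1919 := by omega
    rcases h5 with h | h | h | h | h
    · exact F.kill_class 211 1920 383 (by norm_num) (by norm_num) (by decide +kernel) h (by decide +kernel)
    · exact F.kill_class 19 1920 767 (by norm_num) (by norm_num) (by decide +kernel) h (by decide +kernel)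
    · exact F.kill_class 79 1920 1151 (by norm_num) (by norm_num) (by decide +kernel) h (by decide +kernel)
    · exact F.kill_class 19 1920 1535 (by norm_num) (by norm_num) (by decide +kernel) h (by decide +kernel)
    · exact F.kill_class 19 1920 1919 (by norm_num) (by norm_num) (by decide +kernel) h (by decide +kernel)

theorem Fam.small_353 {l : ℕ} {c u v w d : ℤ} (F : Fam 353 l c u v w d) : False := by
  have h := F.cls 6 1947 1536 (by norm_num) (by norm_num) (by norm_num) (by norm_num)
    (by norm_num) (by decide +kernel)
  have hlt : l % 1536 < 1536 := Nat.mod_lt _ (by norm_num)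
  have hall : ∀ r < 1536, clsB 353 6 r = true → r = 0 ∨ r = 432 ∨ r = 512 ∨ r = 591 ∨ r = 944 ∨ r = 1023 ∨ r = 1103 ∨ r = 1535 := by
    decide +kernel
  rcases hall _ hlt h with h | h | h | h | h | h | h | h
  · exact F.kill_class 15439 1536 0 (by norm_num) (by norm_num) (by decide +kernel) h (by decide +kernel)
  · exact F.kill_class 769 1536 432 (by norm_num) (by norm_num) (by decide +kernel) h (by decide +kernel)
  · exact F.kill_class 23 1536 512 (by norm_num) (by norm_num) (by decide +kernel) h (by decide +kernel)
  · exact F.kill_class 23 1536 591 (by norm_num) (by norm_num) (by decide +kernel) h (by decide +kernel)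
  · exact F.kill_class 23 1536 944 (by norm_num) (by norm_num) (by decide +kernel) h (by decide +kernel)
  · exact F.kill_class 23 1536 1023 (by norm_num) (by norm_num) (by decide +kernel) h (by decide +kernel)
  · exact F.kill_class 769 1536 1103 (by norm_num) (by norm_num) (by decide +kernel) h (by decide +kernel)
  · exact F.kill_class 15439 1536 1535 (by norm_num) (by norm_num) (by decide +kernel) h (by decide +kernel)

end Pool.Agent.Helper77.DT
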