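import Pool.Agent.Helper77.DT.Small.K1
import Pool.Agent.Helper77.DT.Small.K2
import Pool.Agent.Helper77.DT.Small.K3

set_option autoImplicit false

/-! The values `k < 366`. -/

namespace Pool.Agent.Helper77.DT

theorem small_list : ∀ k < 366, 2 ≤ k → k ^ 2 % 48 = 1 →
    k ∈ [7, 17, 23, 25, 31, 41, 47, 49, 55, 65, 71, 73, 79, 89, 95, 97, 103, 113, 119, 121, 127, 137,
      143, 145, 151, 161, 167, 169, 175, 185, 191, 193, 199, 209, 215, 217, 223, 233, 239, 241,
      247, 257, 263, 265, 271, 281, 287, 289, 295, 305, 311, 313, 319, 329, 335, 337, 343, 353,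
      359, 361] := by
  decide +kernel

theorem Fam.lt_large {k l : ℕ} {c u v w d : ℤ} (F : Fam k l c u v w d) (hk : k < 366) :
    False := by
  have h := small_list k hk F.hk F.h48
  simp only [List.mem_cons, List.not_mem_nil, or_false] at h
  rcases h with rfl | rfl | rfl | rfl | rfl | rfl | rfl | rfl | rfl | rfl | rfl | rfl | rfl | rfl | rfl | rfl |
    rfl | rfl | rfl | rfl | rfl | rfl | rfl | rfl | rfl | rfl | rfl | rfl | rfl | rfl | rfl |
    rfl | rfl | rfl | rfl | rfl | rfl | rfl | rfl | rfl | rfl | rfl | rfl | rfl | rfl | rfl |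
    rfl | rfl | rfl | rfl | rfl | rfl | rfl | rfl | rfl | rfl | rfl | rfl | rfl | rfl
  · exact F.h7 7 (by norm_num) (by norm_num) (by norm_num)
  · exact F.odd_val 5 9 (by norm_num) (by norm_num) (by norm_num) (by norm_num)
  · exact F.h24 7 (by norm_num) (by norm_num) (by norm_num)
  · exact F.small_25
  · exact F.h7 31 (by norm_num) (by norm_num) (by norm_num)
  · exact F.small_41
  · exact F.h24 7 (by norm_num) (by norm_num) (by norm_num)
  · exact F.h7 7 (by norm_num) (by norm_num) (by norm_num)
  · exact F.small_55
  · exact F.h24 7 (by norm_num) (by norm_num) (by norm_num)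
  · exact F.small_71
  · exact F.small_73
  · exact F.h7 79 (by norm_num) (by norm_num) (by norm_num)
  · exact F.h24 7 (by norm_num) (by norm_num) (by norm_num)
  · exact F.h7 19 (by norm_num) (by norm_num) (by norm_num)
  · exact F.h24 31 (by norm_num) (by norm_num) (by norm_num)
  · exact F.h7 103 (by norm_num) (by norm_num) (by norm_num)
  · exact F.odd_val 5 399 (by norm_num) (by norm_num) (by norm_num) (by norm_num)
  · exact F.h7 7 (by norm_num) (by norm_num) (by norm_num)
  · exact F.h24 7 (by norm_num) (by norm_num) (by norm_num)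
  · exact F.h7 127 (by norm_num) (by norm_num) (by norm_num)
  · exact F.small_137
  · exact F.odd_val 5 639 (by norm_num) (by norm_num) (by norm_num) (by norm_num)
  · exact F.h24 7 (by norm_num) (by norm_num) (by norm_num)
  · exact F.h7 151 (by norm_num) (by norm_num) (by norm_num)
  · exact F.h7 7 (by norm_num) (by norm_num) (by norm_num)
  · exact F.small_167
  · exact F.small_169
  · exact F.h7 7 (by norm_num) (by norm_num) (by norm_num)
  · exact F.small_185
  · exact F.h24 7 (by norm_num) (by norm_num) (by norm_num)
  · exact F.h24 79 (by norm_num) (by norm_num) (by norm_num)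
  · exact F.h7 199 (by norm_num) (by norm_num) (by norm_num)
  · exact F.h7 19 (by norm_num) (by norm_num) (by norm_num)
  · exact F.h7 43 (by norm_num) (by norm_num) (by norm_num)
  · exact F.h7 7 (by norm_num) (by norm_num) (by norm_num)
  · exact F.h7 223 (by norm_num) (by norm_num) (by norm_num)
  · exact F.h24 7 (by norm_num) (by norm_num) (by norm_num)
  · exact F.odd_val 5 1785 (by norm_num) (by norm_num) (by norm_num) (by norm_num)
  · exact F.odd_val 5 1815 (by norm_num) (by norm_num) (by norm_num) (by norm_num)
  · exact F.h7 19 (by norm_num) (by norm_num) (by norm_num)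
  · exact F.h24 7 (by norm_num) (by norm_num) (by norm_num)
  · exact F.small_263
  · exact F.small_265
  · exact F.h7 271 (by norm_num) (by norm_num) (by norm_num)
  · exact F.h24 79 (by norm_num) (by norm_num) (by norm_num)
  · exact F.h7 7 (by norm_num) (by norm_num) (by norm_num)
  · exact F.h24 7 (by norm_num) (by norm_num) (by norm_num)
  · exact F.small_295
  · exact F.odd_val 5 2907 (by norm_num) (by norm_num) (by norm_num) (by norm_num)
  · exact F.small_311
  · exact F.h24 7 (by norm_num) (by norm_num) (by norm_num)
  · exact F.h24 271 (by norm_num) (by norm_num) (by norm_num)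
  · exact F.h7 7 (by norm_num) (by norm_num) (by norm_num)
  · exact F.h7 67 (by norm_num) (by norm_num) (by norm_num)
  · exact F.h24 31 (by norm_num) (by norm_num) (by norm_num)
  · exact F.h7 7 (by norm_num) (by norm_num) (by norm_num)
  · exact F.small_353
  · exact F.h24 7 (by norm_num) (by norm_num) (by norm_num)
  · exact F.h7 19 (by norm_num) (by norm_num) (by norm_num)

end Pool.Agent.Helper77.DT
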