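import Pool.Agent.Helper77.DT.Small.Kill

set_option autoImplicit false

/-! The classes of `l` left by the condition at `2`. -/

namespace Pool.Agent.Helper77.DT

open Pool.Agent.Helper51.Tors

/-- A solution in the family `{k - 1, k + 1, c}`. -/
structure Fam (k l : ℕ) (c u v w d : ℤ) : Prop where
  hk : 2 ≤ k
  hc : c = 2 * V k l * V k (l + 1)
  hD : Data ((k : ℤ) - 1) ((k : ℤ) + 1) c u v w d
  hl0 : 1 ≤ l
  hl : l % 12 = 0 ∨ l % 12 = 3 ∨ l % 12 = 8 ∨ l % 12 = 11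
  h48 : k ^ 2 % 48 = 1
  h7 : ∀ p : ℕ, p.Prime → p ∣ k → p % 12 ≠ 7
  h24 : ∀ p : ℕ, p.Prime → p ∣ 2 * k ^ 2 - 1 → p % 24 ≠ 7
  htwo : (padicValNat 2 ((k - 1) * (k + 1)) % 2 = 0 ∧
      padicValNat 2 ((k - 1) * (k + 1)) + 3 ≤ padicValNat 2 (l * (l + 1))) ∨
    (padicValNat 2 (l * (l + 1)) % 2 = 0 ∧
      padicValNat 2 (l * (l + 1)) + 7 ≤ padicValNat 2 ((k - 1) * (k + 1))) ∨
    (padicValNat 2 ((k - 1) * (k + 1)) % 2 = 0 ∧
      padicValNat 2 (l * (l + 1)) + 2 = padicValNat 2 ((k - 1) * (k + 1)) ∧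
      ((2 : ℤ) ^ (padicValNat 2 ((k - 1) * (k + 1)) + 4) ∣ c - (k - 1) ∨
        (2 : ℤ) ^ (padicValNat 2 ((k - 1) * (k + 1)) + 4) ∣ c - (k + 1)))

variable {k l : ℕ} {c u v w d : ℤ}

theorem Fam.c_ne (F : Fam k l c u v w d) : c ≠ 0 := by
  have hk := F.hk
  rw [F.hc]
  have h1 := F.hl0
  obtain ⟨j, rfl⟩ : ∃ j, l = j + 1 := ⟨l - 1, by omega⟩
  have h2 := V_pos k (by omega) j
  have h3 := V_pos k (by omega) (j + 1)
  positivity

theorem Fam.kill_class (F : Fam k l c u v w d) (p N r : ℕ) (hp : p.Prime) (hp5 : 5 ≤ p)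
    (hN : Vn k p N = (0, 1 % p)) (hl : l % N = r) (hb : killB k p (cn k p r) = true) : False := by
  have : Fact p.Prime := ⟨hp⟩
  have h := cn_spec hN l
  rw [hl] at h
  refine kill hp5 F.hk F.c_ne ?_ F.hD hb
  rw [F.hc]
  exact h

theorem val_pos (hl : 1 ≤ l) : 1 ≤ padicValNat 2 (l * (l + 1)) := by
  have : Fact (Nat.Prime 2) := ⟨Nat.prime_two⟩
  apply one_le_padicValNat_of_dvd (by positivity)
  rcases Nat.even_or_odd' l with ⟨j, rfl | rfl⟩
  · exact ⟨j * (2 * j + 1), by ring⟩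
  · exact ⟨(2 * j + 1) * (j + 1), by ring⟩

theorem valNat (i x : ℕ) (hx : x % 2 = 1) : padicValNat 2 (2 ^ i * x) = i := by
  have : Fact (Nat.Prime 2) := ⟨Nat.prime_two⟩
  rw [padicValNat.mul (by positivity) (by omega), padicValNat.prime_pow,
    padicValNat.eq_zero_of_not_dvd (by omega), add_zero]

/-- The odd valuations less than `9` are impossible. -/
theorem Fam.odd_val (F : Fam k l c u v w d) (m x : ℕ) (hm : (k - 1) * (k + 1) = 2 ^ m * x)
    (hx : x % 2 = 1) (h1 : m % 2 = 1) (h2 : m < 9) : False := by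
  have h := F.htwo
  have ht := val_pos F.hl0
  rw [hm, valNat m x hx] at h
  omega

theorem mod_of_dvd {T : ℕ} (h : 2 ^ T ∣ l * (l + 1)) : l % 2 ^ T = 0 ∨ l % 2 ^ T = 2 ^ T - 1 := by
  have hT : 0 < 2 ^ T := by positivity
  rcases Nat.mod_two_eq_zero_or_one l with h2 | h2
  · left
    have hc : Nat.Coprime (2 ^ T) (l + 1) := by
      apply Nat.Coprime.pow_left
      rw [Nat.coprime_comm, Nat.coprime_two_right, Nat.odd_iff]
      omega
    exact Nat.mod_eq_zero_of_dvd (hc.dvd_of_dvd_mul_right h)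
  · right
    have hc : Nat.Coprime (2 ^ T) l := by
      apply Nat.Coprime.pow_left
      rw [Nat.coprime_comm, Nat.coprime_two_right, Nat.odd_iff]
      omega
    obtain ⟨j, hj⟩ := hc.dvd_of_dvd_mul_left h
    obtain ⟨i, rfl⟩ : ∃ i, j = i + 1 := by
      cases j with
      | zero => omega
      | succ i => exact ⟨i, rfl⟩
    have e : l = (2 ^ T - 1) + 2 ^ T * i := by
      rw [mul_add, mul_one] at hj
      omega
    rw [e, Nat.add_mul_mod_self_left]
    exact Nat.mod_eq_of_lt (by omega)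

/-- `c` modulo `2 h` from the sequence modulo `h`. -/
theorem cn_two {h N : ℕ} [NeZero h] (hN : Vn k h N = (0, 1 % h)) (hc : c = 2 * V k l * V k (l + 1)) :
    ((2 * h : ℕ) : ℤ) ∣ c - (cn k h (l % N) : ℕ) := by
  obtain ⟨h1, h2, -, -⟩ := Vn_spec k h (l % N)
  have h3 : ((V k (l + 1) : ℤ) : ZMod h) = ((V k (l % N + 1) : ℤ) : ZMod h) := by
    have hh : ∀ j r, ((V k (r + 1 + N * j) : ℤ) : ZMod h) = ((V k (r + 1) : ℤ) : ZMod h) := by
      intro j r
      induction j with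
      | zero => rw [mul_zero, add_zero]
      | succ j ih =>
        rw [mul_add, mul_one, ← add_assoc, V_per hN, ih]
    have := hh (l / N) (l % N)
    have e : l % N + 1 + N * (l / N) = l + 1 := by
      have := Nat.mod_add_div l N
      omega
    rwa [e] at this
  have h4 := V_mod hN l
  rw [← h1] at h4
  rw [← h2] at h3
  have g1 : (h : ℤ) ∣ V k l - ((Vn k h (l % N)).1 : ℕ) := by
    rw [← ZMod.intCast_zmod_eq_zero_iff_dvd]
    push_cast
    rw [h4]
    simp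
  have g2 : (h : ℤ) ∣ V k (l + 1) - ((Vn k h (l % N)).2 : ℕ) := by
    rw [← ZMod.intCast_zmod_eq_zero_iff_dvd]
    push_cast
    rw [h3]
    simp
  obtain ⟨x, hx⟩ := g1
  obtain ⟨y, hy⟩ := g2
  refine ⟨x * V k (l + 1) + (Vn k h (l % N)).1 * y, ?_⟩
  rw [hc, cn]
  push_cast
  linear_combination 2 * V k (l + 1) * hx + 2 * ((Vn k h (l % N)).1 : ℤ) * hy

/-- The classes modulo `N`. -/
def clsB (k m r : ℕ) : Bool :=
  (r % 12 == 0 || r % 12 == 3 || r % 12 == 8 || r % 12 == 11) &&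
  (r % 2 ^ (m + 3) == 0 || r % 2 ^ (m + 3) == 2 ^ (m + 3) - 1 ||
    ((r % 2 ^ (m - 2) == 0 || r % 2 ^ (m - 2) == 2 ^ (m - 2) - 1) &&
      ((cn k (2 ^ (m + 3)) r + 2 ^ (m + 4) * k - (k - 1)) % 2 ^ (m + 4) == 0 ||
        (cn k (2 ^ (m + 3)) r + 2 ^ (m + 4) * k - (k + 1)) % 2 ^ (m + 4) == 0)))

theorem Fam.cls (F : Fam k l c u v w d) (m x N : ℕ) (hm : (k - 1) * (k + 1) = 2 ^ m * x)
    (hx : x % 2 = 1) (h1 : m < 9) (h12 : 12 ∣ N) (hdv : 2 ^ (m + 3) ∣ N)
    (hN : Vn k (2 ^ (m + 3)) N = (0, 1 % 2 ^ (m + 3))) : clsB k m (l % N) = true := by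
  have hk := F.hk
  have h := F.htwo
  have ht := val_pos F.hl0
  rw [hm, valNat m x hx] at h
  have hl12 : (l % N) % 12 = l % 12 := Nat.mod_mod_of_dvd l h12
  have hl2 : (l % N) % 2 ^ (m + 3) = l % 2 ^ (m + 3) := Nat.mod_mod_of_dvd l hdv
  have hl2' : (l % N) % 2 ^ (m - 2) = l % 2 ^ (m - 2) :=
    Nat.mod_mod_of_dvd l ((pow_dvd_pow 2 (by omega)).trans hdv)
  rw [clsB, hl12, hl2, hl2']
  have g12 : (l % 12 == 0 || l % 12 == 3 || l % 12 == 8 || l % 12 == 11) = true := by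
    have := F.hl
    simp only [Bool.or_eq_true, beq_iff_eq]
    omega
  rw [g12, Bool.true_and]
  have : Fact (Nat.Prime 2) := ⟨Nat.prime_two⟩
  have hl0 := F.hl0
  have hne : l * (l + 1) ≠ 0 := by positivity
  have hdvd : ∀ T, T ≤ padicValNat 2 (l * (l + 1)) → 2 ^ T ∣ l * (l + 1) := fun T hT =>
    (padicValNat_dvd_iff_le hne).2 hT
  rcases h with h | h | h
  · rcases mod_of_dvd (hdvd _ h.2) with h' | h'
    · simp [h']
    · simp [h']
  · omega
  · obtain ⟨i1, i2, i3⟩ := h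
    have hcc := cn_two hN F.hc
    rw [show 2 * 2 ^ (m + 3) = 2 ^ (m + 4) by ring] at hcc
    have hle : k + 1 ≤ 2 ^ (m + 4) * k := by
      have : 2 ≤ 2 ^ (m + 4) := by
        have := Nat.pow_le_pow_right (n := 2) (by norm_num) (show 1 ≤ m + 4 by omega)
        simpa using this
      nlinarith
    have g3 : ((cn k (2 ^ (m + 3)) (l % N) + 2 ^ (m + 4) * k - (k - 1)) % 2 ^ (m + 4) == 0 ||
        (cn k (2 ^ (m + 3)) (l % N) + 2 ^ (m + 4) * k - (k + 1)) % 2 ^ (m + 4) == 0) = true := by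
      simp only [Bool.or_eq_true, beq_iff_eq]
      generalize cn k (2 ^ (m + 3)) (l % N) = z at *
      rcases i3 with i3 | i3
      · left
        apply Nat.mod_eq_zero_of_dvd
        have hd : ((2 ^ (m + 4) : ℕ) : ℤ) ∣ ((z + 2 ^ (m + 4) * k - (k - 1) : ℕ) : ℤ) := by
          rw [Nat.cast_sub (by omega)]
          push_cast [Nat.cast_sub (show 1 ≤ k by omega)]
          have e : (z : ℤ) + 2 ^ (m + 4) * k - (k - 1) =
              (c - (k - 1)) - (c - z) + 2 ^ (m + 4) * k := by ring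
          rw [e]
          push_cast at hcc
          exact dvd_add (dvd_sub i3 hcc) (dvd_mul_right _ _)
        exact_mod_cast hd
      · right
        apply Nat.mod_eq_zero_of_dvd
        have hd : ((2 ^ (m + 4) : ℕ) : ℤ) ∣ ((z + 2 ^ (m + 4) * k - (k + 1) : ℕ) : ℤ) := by
          rw [Nat.cast_sub (by omega)]
          push_cast
          have e : (z : ℤ) + 2 ^ (m + 4) * k - (k + 1) =
              (c - (k + 1)) - (c - z) + 2 ^ (m + 4) * k := by ring
          rw [e]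
          push_cast at hcc
          exact dvd_add (dvd_sub i3 hcc) (dvd_mul_right _ _)
        exact_mod_cast hd
    rw [g3, Bool.and_true]
    rcases mod_of_dvd (hdvd (m - 2) (by omega)) with h' | h'
    · simp [h']
    · simp [h']

end Pool.Agent.Helper77.DT
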