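import Pool.Agent.Helper77.DT.Small.Classes

set_option autoImplicit false

/-! The remaining small values of `k`. -/

namespace Pool.Agent.Helper77.DT

theorem Fam.small_25 {l : ℕ} {c u v w d : ℤ} (F : Fam 25 l c u v w d) : False := by
  have h := F.cls 4 39 384 (by norm_num) (by norm_num) (by norm_num) (by norm_num)
    (by norm_num) (by decide +kernel)
  have hlt : l % 384 < 384 := Nat.mod_lt _ (by norm_num)
  have hall : ∀ r < 384, clsB 25 4 r = true → r = 0 ∨ r = 35 ∨ r = 92 ∨ r = 128 ∨ r = 255 ∨ r = 291 ∨ r = 348 ∨ r = 383 := by
    decide +kernel
  rcases hall _ hlt h with h | h | h | h | h | h | h | h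
  · exact F.kill_class 127 384 0 (by norm_num) (by norm_num) (by decide +kernel) h (by decide +kernel)
  · exact F.kill_class 127 384 35 (by norm_num) (by norm_num) (by decide +kernel) h (by decide +kernel)
  · exact F.kill_class 127 384 92 (by norm_num) (by norm_num) (by decide +kernel) h (by decide +kernel)
  · exact F.kill_class 127 384 128 (by norm_num) (by norm_num) (by decide +kernel) h (by decide +kernel)
  · exact F.kill_class 127 384 255 (by norm_num) (by norm_num) (by decide +kernel) h (by decide +kernel)
  · exact F.kill_class 127 384 291 (by norm_num) (by norm_num) (by decide +kernel) h (by decide +kernel)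
  · exact F.kill_class 127 384 348 (by norm_num) (by norm_num) (by decide +kernel) h (by decide +kernel)
  · exact F.kill_class 127 384 383 (by norm_num) (by norm_num) (by decide +kernel) h (by decide +kernel)

theorem Fam.small_41 {l : ℕ} {c u v w d : ℤ} (F : Fam 41 l c u v w d) : False := by
  have h := F.cls 4 105 384 (by norm_num) (by norm_num) (by norm_num) (by norm_num)
    (by norm_num) (by decide +kernel)
  have hlt : l % 384 < 384 := Nat.mod_lt _ (by norm_num)
  have hall : ∀ r < 384, clsB 41 4 r = true → r = 0 ∨ r = 27 ∨ r = 128 ∨ r = 155 ∨ r = 228 ∨ r = 255 ∨ r = 356 ∨ r = 383 := by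
    decide +kernel
  rcases hall _ hlt h with h | h | h | h | h | h | h | h
  · exact F.kill_class 31 384 0 (by norm_num) (by norm_num) (by decide +kernel) h (by decide +kernel)
  · exact F.kill_class 31 384 27 (by norm_num) (by norm_num) (by decide +kernel) h (by decide +kernel)
  · exact F.kill_class 31 384 128 (by norm_num) (by norm_num) (by decide +kernel) h (by decide +kernel)
  · exact F.kill_class 31 384 155 (by norm_num) (by norm_num) (by decide +kernel) h (by decide +kernel)
  · exact F.kill_class 31 384 228 (by norm_num) (by norm_num) (by decide +kernel) h (by decide +kernel)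
  · exact F.kill_class 31 384 255 (by norm_num) (by norm_num) (by decide +kernel) h (by decide +kernel)
  · exact F.kill_class 31 384 356 (by norm_num) (by norm_num) (by decide +kernel) h (by decide +kernel)
  · exact F.kill_class 31 384 383 (by norm_num) (by norm_num) (by decide +kernel) h (by decide +kernel)

theorem Fam.small_55 {l : ℕ} {c u v w d : ℤ} (F : Fam 55 l c u v w d) : False := by
  have h := F.cls 4 189 384 (by norm_num) (by norm_num) (by norm_num) (by norm_num)
    (by norm_num) (by decide +kernel)
  have hlt : l % 384 < 384 := Nat.mod_lt _ (by norm_num)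
  have hall : ∀ r < 384, clsB 55 4 r = true → r = 0 ∨ r = 75 ∨ r = 128 ∨ r = 180 ∨ r = 203 ∨ r = 255 ∨ r = 308 ∨ r = 383 := by
    decide +kernel
  rcases hall _ hlt h with h | h | h | h | h | h | h | h
  · exact F.kill_class 31 384 0 (by norm_num) (by norm_num) (by decide +kernel) h (by decide +kernel)
  · exact F.kill_class 17 384 75 (by norm_num) (by norm_num) (by decide +kernel) h (by decide +kernel)
  · exact F.kill_class 31 384 128 (by norm_num) (by norm_num) (by decide +kernel) h (by decide +kernel)
  · exact F.kill_class 17 384 180 (by norm_num) (by norm_num) (by decide +kernel) h (by decide +kernel)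
  · exact F.kill_class 17 384 203 (by norm_num) (by norm_num) (by decide +kernel) h (by decide +kernel)
  · exact F.kill_class 31 384 255 (by norm_num) (by norm_num) (by decide +kernel) h (by decide +kernel)
  · exact F.kill_class 17 384 308 (by norm_num) (by norm_num) (by decide +kernel) h (by decide +kernel)
  · exact F.kill_class 31 384 383 (by norm_num) (by norm_num) (by decide +kernel) h (by decide +kernel)

theorem Fam.small_71 {l : ℕ} {c u v w d : ℤ} (F : Fam 71 l c u v w d) : False := by
  have h := F.cls 4 315 384 (by norm_num) (by norm_num) (by norm_num) (by norm_num)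
    (by norm_num) (by decide +kernel)
  have hlt : l % 384 < 384 := Nat.mod_lt _ (by norm_num)
  have hall : ∀ r < 384, clsB 71 4 r = true → r = 0 ∨ r = 44 ∨ r = 83 ∨ r = 128 ∨ r = 255 ∨ r = 300 ∨ r = 339 ∨ r = 383 := by
    decide +kernel
  rcases hall _ hlt h with h | h | h | h | h | h | h | h
  · have h5 : l % 1920 = 0 ∨ l % 1920 = 384 ∨ l % 1920 = 768 ∨ l % 1920 = 1152 ∨ l % 1920 = 1536 := by omega
    rcases h5 with h | h | h | h | h
    · exact F.kill_class 79 1920 0 (by norm_num) (by norm_num) (by decide +kernel) h (by decide +kernel)
    · exact F.kill_class 79 1920 384 (by norm_num) (by norm_num) (by decide +kernel) h (by decide +kernel)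
    · exact F.kill_class 401 1920 768 (by norm_num) (by norm_num) (by decide +kernel) h (by decide +kernel)
    · exact F.kill_class 31 1920 1152 (by norm_num) (by norm_num) (by decide +kernel) h (by decide +kernel)
    · exact F.kill_class 79 1920 1536 (by norm_num) (by norm_num) (by decide +kernel) h (by decide +kernel)
  · exact F.kill_class 97 384 44 (by norm_num) (by norm_num) (by decide +kernel) h (by decide +kernel)
  · exact F.kill_class 97 384 83 (by norm_num) (by norm_num) (by decide +kernel) h (by decide +kernel)
  · have h5 : l % 1920 = 128 ∨ l % 1920 = 512 ∨ l % 1920 = 896 ∨ l % 1920 = 1280 ∨ l % 1920 = 1664 := by omega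
    rcases h5 with h | h | h | h | h
    · exact F.kill_class 401 1920 128 (by norm_num) (by norm_num) (by decide +kernel) h (by decide +kernel)
    · exact F.kill_class 31 1920 512 (by norm_num) (by norm_num) (by decide +kernel) h (by decide +kernel)
    · exact F.kill_class 79 1920 896 (by norm_num) (by norm_num) (by decide +kernel) h (by decide +kernel)
    · exact F.kill_class 79 1920 1280 (by norm_num) (by norm_num) (by decide +kernel) h (by decide +kernel)
    · exact F.kill_class 79 1920 1664 (by norm_num) (by norm_num) (by decide +kernel) h (by decide +kernel)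
  · have h5 : l % 1920 = 255 ∨ l % 1920 = 639 ∨ l % 1920 = 1023 ∨ l % 1920 = 1407 ∨ l % 1920 = 1791 := by omega
    rcases h5 with h | h | h | h | h
    · exact F.kill_class 79 1920 255 (by norm_num) (by norm_num) (by decide +kernel) h (by decide +kernel)
    · exact F.kill_class 79 1920 639 (by norm_num) (by norm_num) (by decide +kernel) h (by decide +kernel)
    · exact F.kill_class 79 1920 1023 (by norm_num) (by norm_num) (by decide +kernel) h (by decide +kernel)
    · exact F.kill_class 31 1920 1407 (by norm_num) (by norm_num) (by decide +kernel) h (by decide +kernel)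
    · exact F.kill_class 401 1920 1791 (by norm_num) (by norm_num) (by decide +kernel) h (by decide +kernel)
  · exact F.kill_class 97 384 300 (by norm_num) (by norm_num) (by decide +kernel) h (by decide +kernel)
  · exact F.kill_class 97 384 339 (by norm_num) (by norm_num) (by decide +kernel) h (by decide +kernel)
  · have h5 : l % 1920 = 383 ∨ l % 1920 = 767 ∨ l % 1920 = 1151 ∨ l % 1920 = 1535 ∨ l % 1920 = 1919 := by omega
    rcases h5 with h | h | h | h | h
    · exact F.kill_class 79 1920 383 (by norm_num) (by norm_num) (by decide +kernel) h (by decide +kernel)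
    · exact F.kill_class 31 1920 767 (by norm_num) (by norm_num) (by decide +kernel) h (by decide +kernel)
    · exact F.kill_class 401 1920 1151 (by norm_num) (by norm_num) (by decide +kernel) h (by decide +kernel)
    · exact F.kill_class 79 1920 1535 (by norm_num) (by norm_num) (by decide +kernel) h (by decide +kernel)
    · exact F.kill_class 79 1920 1919 (by norm_num) (by norm_num) (by decide +kernel) h (by decide +kernel)

theorem Fam.small_73 {l : ℕ} {c u v w d : ℤ} (F : Fam 73 l c u v w d) : False := by
  have h := F.cls 4 333 384 (by norm_num) (by norm_num) (by norm_num) (by norm_num)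
    (by norm_num) (by decide +kernel)
  have hlt : l % 384 < 384 := Nat.mod_lt _ (by norm_num)
  have hall : ∀ r < 384, clsB 73 4 r = true → r = 0 ∨ r = 11 ∨ r = 116 ∨ r = 128 ∨ r = 255 ∨ r = 267 ∨ r = 372 ∨ r = 383 := by
    decide +kernel
  rcases hall _ hlt h with h | h | h | h | h | h | h | h
  · exact F.kill_class 31 384 0 (by norm_num) (by norm_num) (by decide +kernel) h (by decide +kernel)
  · exact F.kill_class 31 384 11 (by norm_num) (by norm_num) (by decide +kernel) h (by decide +kernel)
  · exact F.kill_class 31 384 116 (by norm_num) (by norm_num) (by decide +kernel) h (by decide +kernel)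
  · exact F.kill_class 31 384 128 (by norm_num) (by norm_num) (by decide +kernel) h (by decide +kernel)
  · exact F.kill_class 31 384 255 (by norm_num) (by norm_num) (by decide +kernel) h (by decide +kernel)
  · exact F.kill_class 31 384 267 (by norm_num) (by norm_num) (by decide +kernel) h (by decide +kernel)
  · exact F.kill_class 31 384 372 (by norm_num) (by norm_num) (by decide +kernel) h (by decide +kernel)
  · exact F.kill_class 31 384 383 (by norm_num) (by norm_num) (by decide +kernel) h (by decide +kernel)

end Pool.Agent.Helper77.DT
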