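import Pool.Agent.Helper77.DT.TwoPairs

set_option autoImplicit false

/-! Computations modulo small primes. -/

namespace Pool.Agent.Helper77.DT

open Pool.Agent.Helper51.Tors

/-- `(V_l, V_{l+1})` modulo `n`. -/
def Vn (k n : ℕ) : ℕ → ℕ × ℕ
  | 0 => (0, 1 % n)
  | l + 1 => match Vn k n l with
    | (x, y) => (y, (2 * k * y + (n - x)) % n)

theorem Vn_succ (k n l : ℕ) : Vn k n (l + 1) =
    ((Vn k n l).2, (2 * k * (Vn k n l).2 + (n - (Vn k n l).1)) % n) := rfl

theorem Vn_spec (k n : ℕ) [NeZero n] (l : ℕ) :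
    (((Vn k n l).1 : ℕ) : ZMod n) = ((V k l : ℤ) : ZMod n) ∧
    (((Vn k n l).2 : ℕ) : ZMod n) = ((V k (l + 1) : ℤ) : ZMod n) ∧
    (Vn k n l).1 ≤ n ∧ (Vn k n l).2 ≤ n := by
  have hn : 0 < n := Nat.pos_of_ne_zero (NeZero.ne n)
  induction l with
  | zero =>
    refine ⟨by simp [Vn, V_zero], ?_, Nat.zero_le _, (Nat.mod_lt _ hn).le⟩
    show (((1 % n : ℕ) : ℕ) : ZMod n) = _
    rw [V_one, ZMod.natCast_mod]
    simp
  | succ l ih =>
    obtain ⟨h1, h2, h3, h4⟩ := ih
    rw [Vn_succ]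
    refine ⟨h2, ?_, h4, (Nat.mod_lt _ hn).le⟩
    show (((2 * k * (Vn k n l).2 + (n - (Vn k n l).1)) % n : ℕ) : ZMod n) = _
    rw [ZMod.natCast_mod, V_two]
    push_cast [Nat.cast_sub h3]
    rw [h1, h2, ZMod.natCast_self]
    ring

theorem V_per {k n N : ℕ} [NeZero n] (hN : Vn k n N = (0, 1 % n)) (l : ℕ) :
    ((V k (l + N) : ℤ) : ZMod n) = ((V k l : ℤ) : ZMod n) := by
  obtain ⟨h1, h2, -, -⟩ := Vn_spec k n N
  rw [hN] at h1 h2
  have h : ∀ l, ((V k (l + N) : ℤ) : ZMod n) = ((V k l : ℤ) : ZMod n) ∧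
      ((V k (l + 1 + N) : ℤ) : ZMod n) = ((V k (l + 1) : ℤ) : ZMod n) := by
    intro l
    induction l with
    | zero =>
      refine ⟨by rw [zero_add, ← h1, V_zero]; simp, ?_⟩
      rw [zero_add, add_comm 1 N, ← h2, V_one, ZMod.natCast_mod]
      simp
    | succ l ih =>
      refine ⟨ih.2, ?_⟩
      have e1 : l + 1 + 1 + N = (l + N) + 2 := by ring
      have e2 : l + N + 1 = l + 1 + N := by ring
      rw [e1, V_two, e2, show l + 1 + 1 = l + 2 from rfl, V_two]
      push_cast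
      rw [ih.1, ih.2]
  exact (h l).1

theorem V_mod {k n N : ℕ} [NeZero n] (hN : Vn k n N = (0, 1 % n)) (l : ℕ) :
    ((V k l : ℤ) : ZMod n) = ((V k (l % N) : ℤ) : ZMod n) := by
  have h : ∀ j r, ((V k (r + N * j) : ℤ) : ZMod n) = ((V k r : ℤ) : ZMod n) := by
    intro j r
    induction j with
    | zero => rw [mul_zero, add_zero]
    | succ j ih =>
      rw [mul_add, mul_one, ← add_assoc, V_per hN, ih]
  have := h (l / N) (l % N)
  rw [Nat.mod_add_div] at this
  exact this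

/-- `c` modulo `n`. -/
def cn (k n l : ℕ) : ℕ := 2 * (Vn k n l).1 * (Vn k n l).2

theorem cn_spec {k n N : ℕ} [NeZero n] (hN : Vn k n N = (0, 1 % n)) (l : ℕ) :
    ((2 * V k l * V k (l + 1) : ℤ) : ZMod n) = ((cn k n (l % N) : ℕ) : ZMod n) := by
  obtain ⟨h1, h2, -, -⟩ := Vn_spec k n (l % N)
  have h3 : ((V k (l + 1) : ℤ) : ZMod n) = ((V k (l % N + 1) : ℤ) : ZMod n) := by
    have h : ∀ j r, ((V k (r + 1 + N * j) : ℤ) : ZMod n) = ((V k (r + 1) : ℤ) : ZMod n) := by
      intro j r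
      induction j with
      | zero => rw [mul_zero, add_zero]
      | succ j ih =>
        rw [mul_add, mul_one, ← add_assoc, V_per hN, ih]
    have := h (l / N) (l % N)
    have e : l % N + 1 + N * (l / N) = l + 1 := by
      have := Nat.mod_add_div l N
      omega
    rwa [e] at this
  rw [cn]
  push_cast
  rw [h1, h2, V_mod hN l, h3]

/-- The test. -/
def killB (k p c : ℕ) : Bool :=
  if c % p = 0 then
    ((k * k - 1) ^ (p / 2) % p == p - 1) && (((p - 3) * (k * k - 1)) ^ (p / 2) % p == p - 1)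
  else
    (((k - 1) * (c + p * (k + 1) - (k + 1))) % p != 0) &&
    (List.range p).all fun U =>
      ((k - 1) * (c + p * (k + 1) - (k + 1)) * (2 * U + 1) + 2 * c * (U ^ 3 * (U + 2))) % p != 0 ||
      ((k - 1) * (c + p * (k + 1) - (k + 1)) * ((p - 1) * (U ^ 3 * (U + 2)))) ^ (p / 2) % p != 1

theorem pow_eq_neg_one {p x : ℕ} [Fact p.Prime] (h : x ^ (p / 2) % p = p - 1) (hp : 3 ≤ p) :
    ¬ IsSquare (x : ZMod p) := by
  intro hs
  have h1 : ((x ^ (p / 2) : ℕ) : ZMod p) = -1 := by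
    rw [← ZMod.natCast_mod, h, Nat.cast_sub (by omega)]
    simp
  push_cast at h1
  have hx : (x : ZMod p) ≠ 0 := by
    intro h0
    rw [h0, zero_pow (by omega)] at h1
    have : (1 : ZMod p) = 0 := by linear_combination h1
    exact one_ne_zero this
  rw [(ZMod.euler_criterion p hx).1 hs] at h1
  have h2 : ((2 : ℕ) : ZMod p) = 0 := by push_cast; linear_combination h1
  rw [ZMod.natCast_eq_zero_iff] at h2
  have := Nat.le_of_dvd (by norm_num) h2
  omega

theorem kill {k p c : ℕ} [hpf : Fact p.Prime] (hp : 5 ≤ p) (hk : 2 ≤ k) {C u v w d : ℤ}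
    (hC0 : C ≠ 0) (hc : ((C : ℤ) : ZMod p) = ((c : ℕ) : ZMod p))
    (hD : Data ((k : ℤ) - 1) ((k : ℤ) + 1) C u v w d) (hb : killB k p c = true) : False := by
  have hk1 : 1 ≤ k * k := by nlinarith
  have hpZ : Prime (p : ℤ) := Nat.prime_iff_prime_int.1 hpf.out
  rw [killB] at hb
  split_ifs at hb with h0
  · rw [Bool.and_eq_true, beq_iff_eq, beq_iff_eq] at hb
    obtain ⟨b1, b2⟩ := hb
    have n1 := pow_eq_neg_one b1 (by omega)
    have n2 := pow_eq_neg_one b2 (by omega)
    push_cast [Nat.cast_sub hk1, Nat.cast_sub (show 3 ≤ p by omega)] at n1 n2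
    rw [ZMod.natCast_self, zero_sub] at n2
    have hcz : ((c : ℕ) : ZMod p) = 0 := by
      rw [ZMod.natCast_eq_zero_iff]
      exact Nat.dvd_of_mod_eq_zero h0
    have hpC : (p : ℤ) ∣ C := by
      rw [← ZMod.intCast_zmod_eq_zero_iff_dvd, hc, hcz]
    have hna : ¬ (p : ℤ) ∣ (k : ℤ) - 1 := by
      intro h
      rw [← ZMod.intCast_zmod_eq_zero_iff_dvd] at h
      push_cast at h
      apply n1
      refine ⟨0, ?_⟩
      linear_combination ((k : ZMod p) + 1) * h
    have hnb : ¬ (p : ℤ) ∣ (k : ℤ) + 1 := by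
      intro h
      rw [← ZMod.intCast_zmod_eq_zero_iff_dvd] at h
      push_cast at h
      apply n1
      refine ⟨0, ?_⟩
      linear_combination ((k : ZMod p) - 1) * h
    have hmain := prime_cond hD hp hC0 (by omega) hpC hna hnb
    push_cast at hmain
    have e1 : ((k : ZMod p) - 1) * (k + 1) = k * k - 1 := by ring
    rw [e1] at hmain
    rcases hmain with h | h
    · exact n2 h
    · exact n1 h.1
  · rw [Bool.and_eq_true, bne_iff_ne, List.all_eq_true] at hb
    obtain ⟨b1, b2⟩ := hb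
    obtain ⟨A', hA'⟩ : ∃ A', A' = (k - 1) * (c + p * (k + 1) - (k + 1)) := ⟨_, rfl⟩
    rw [← hA'] at b1 b2
    have hle : k + 1 ≤ c + p * (k + 1) := by nlinarith
    have hAc : (A' : ZMod p) = ((k : ZMod p) - 1) * (c - (k + 1)) := by
      rw [hA']
      push_cast [Nat.cast_sub hle, Nat.cast_sub (show 1 ≤ k by omega)]
      rw [ZMod.natCast_self]
      ring
    have hA0 : (A' : ZMod p) ≠ 0 := by
      rw [Ne, ZMod.natCast_eq_zero_iff]
      intro h
      exact b1 (Nat.mod_eq_zero_of_dvd h)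
    have hcz : ((c : ℕ) : ZMod p) ≠ 0 := by
      rw [Ne, ZMod.natCast_eq_zero_iff]
      intro h
      exact h0 (Nat.mod_eq_zero_of_dvd h)
    have h2z : (2 : ZMod p) ≠ 0 := by
      intro h
      have h2 : ((2 : ℕ) : ZMod p) = 0 := by exact_mod_cast h
      rw [ZMod.natCast_eq_zero_iff] at h2
      have := Nat.le_of_dvd (by norm_num) h2
      omega
    have f1 := congrArg (Int.cast : ℤ → ZMod p) hD.h1
    have f3 := congrArg (Int.cast : ℤ → ZMod p) hD.h3
    have fs := congrArg (Int.cast : ℤ → ZMod p) hD.hsum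
    push_cast at f1 f3 fs
    rw [hc] at f1 f3
    have hv : (v : ZMod p) = -u - w := by linear_combination fs
    rw [hv] at f1 f3
    have hw : (w : ZMod p) ≠ 0 := by
      intro h
      rw [h] at f3
      have : (2 : ZMod p) * c = 0 := by linear_combination f3
      rcases mul_eq_zero.1 this with h | h
      · exact h2z h
      · exact hcz h
    obtain ⟨U, hU⟩ : ∃ U : ZMod p, (u : ZMod p) = U * w := ⟨u / w, by field_simp⟩
    have g1 : (A' : ZMod p) = (d * w ^ 2) ^ 2 * (-(U ^ 3 * (U + 2))) := by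
      rw [hAc, f1, hU]
      ring
    have g3 : (2 : ZMod p) * c = (d * w ^ 2) ^ 2 * (2 * U + 1) := by
      have : (2 : ZMod p) * c = c * (k + 1 - (k - 1)) := by ring
      rw [this, f3, hU]
      ring
    have hUv : ((U.val : ℕ) : ZMod p) = U := ZMod.natCast_zmod_val U
    have b3 := b2 U.val (List.mem_range.2 (ZMod.val_lt U))
    rw [Bool.or_eq_true, bne_iff_ne, bne_iff_ne] at b3
    rcases b3 with b3 | b3
    · apply b3
      apply Nat.mod_eq_zero_of_dvd
      rw [← ZMod.natCast_eq_zero_iff]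
      push_cast
      rw [hUv, g1]
      linear_combination (U ^ 3 * (U + 2)) * g3
    · apply b3
      have e1 : ((A' * ((p - 1) * (U.val ^ 3 * (U.val + 2))) : ℕ) : ZMod p) =
          (d * w ^ 2 * (U ^ 3 * (U + 2))) ^ 2 := by
        push_cast [Nat.cast_sub (show 1 ≤ p by omega)]
        rw [hUv, ZMod.natCast_self, g1]
        ring
      have e2 : ((A' * ((p - 1) * (U.val ^ 3 * (U.val + 2))) : ℕ) : ZMod p) ≠ 0 := by
        rw [e1]
        intro h
        have h' := (pow_eq_zero_iff (by norm_num)).1 h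
        apply hA0
        rw [g1]
        linear_combination (-(d * w ^ 2 : ZMod p)) * h'
      have e3 : IsSquare ((A' * ((p - 1) * (U.val ^ 3 * (U.val + 2))) : ℕ) : ZMod p) := by
        rw [e1]
        exact ⟨_, pow_two _⟩
      have e4 := (ZMod.euler_criterion p e2).1 e3
      have e5 : (((A' * ((p - 1) * (U.val ^ 3 * (U.val + 2)))) ^ (p / 2) : ℕ) : ZMod p) =
          ((1 : ℕ) : ZMod p) := by
        rw [Nat.cast_pow, e4, Nat.cast_one]
      rw [ZMod.natCast_eq_natCast_iff'] at e5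
      rw [e5]
      exact Nat.mod_eq_of_lt (by omega)

end Pool.Agent.Helper77.DT
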